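import Mathlib

set_option autoImplicit false

namespace Pool.Agent.Results.MP_270b6b_co.AllFromFive

open Finset

/-- vertices 1..p -/
def C1 (n m : ℕ) : Finset (Fin m) := univ.filter (fun v => 1 ≤ v.1 ∧ v.1 ≤ (n + 1) / 2)
/-- vertices p+1..n -/
def C2 (n m : ℕ) : Finset (Fin m) := univ.filter (fun v => (n + 1) / 2 + 1 ≤ v.1 ∧ v.1 ≤ n)
/-- vertices n+1..2n -/
def I1 (n m : ℕ) : Finset (Fin m) := univ.filter (fun v => n + 1 ≤ v.1 ∧ v.1 ≤ 2 * n)
/-- vertices 2n+1..3n -/
def I2 (n m : ℕ) : Finset (Fin m) := univ.filter (fun v => 2 * n + 1 ≤ v.1 ∧ v.1 ≤ 3 * n)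
/-- hub -/
def H0 (m : ℕ) : Finset (Fin m) := univ.filter (fun v => v.1 = 0)
/-- non-hub vertices of the gadget -/
def T (n m : ℕ) : Finset (Fin m) := univ.filter (fun v => 1 ≤ v.1 ∧ v.1 ≤ 3 * n)

lemma card_interval (m a b : ℕ) (hb : b < m) :
    (univ.filter (fun v : Fin m => a ≤ v.1 ∧ v.1 ≤ b)).card = b + 1 - a := by
  have h : (univ.filter (fun v : Fin m => a ≤ v.1 ∧ v.1 ≤ b)).map Fin.valEmbedding = Finset.Icc a b := by
    ext x
    simp only [mem_map, mem_filter, mem_univ, true_and, Fin.valEmbedding_apply, mem_Icc]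
    constructor
    · rintro ⟨v, hv, rfl⟩; exact hv
    · intro hx; exact ⟨⟨x, by omega⟩, hx, rfl⟩
  rw [← Finset.card_map Fin.valEmbedding, h, Nat.card_Icc]

/-- the edges of the gadget -/
def F (n m : ℕ) : Finset (Sym2 (Fin m)) :=
  (((H0 m) ×ˢ (T n m)).image (fun x => s(x.1, x.2)) ∪
    ((C1 n m) ×ˢ (I1 n m)).image (fun x => s(x.1, x.2)) ∪
    ((C2 n m) ×ˢ (I2 n m)).image (fun x => s(x.1, x.2))) ∪
    ((C1 n m).offDiag.image (fun x => s(x.1, x.2)) ∪ (C2 n m).offDiag.image (fun x => s(x.1, x.2)))

lemma choose_two_even (k : ℕ) : (2 * k).choose 2 = k * (2 * k - 1) := by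
  rw [Nat.choose_two_right]
  rw [show 2 * k * (2 * k - 1) = (k * (2 * k - 1)) * 2 by ring]
  exact Nat.mul_div_cancel _ (by norm_num)

lemma choose_two_odd (k : ℕ) : (2 * k + 1).choose 2 = k * (2 * k + 1) := by
  rw [Nat.choose_two_right]
  rw [show (2 * k + 1) * (2 * k + 1 - 1) = (k * (2 * k + 1)) * 2 by simp; ring]
  exact Nat.mul_div_cancel _ (by norm_num)

lemma two_choose (k : ℕ) : 2 * k.choose 2 + k = k * k := by
  induction k with
  | zero => simp
  | succ k ih =>
    rw [Nat.choose_succ_succ' k 1]
    simp only [Nat.choose_one_right]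
    nlinarith [ih]

lemma card_F (n m : ℕ) (hn : 5 ≤ n) (hm : 3 * n + 1 ≤ m) :
    (F n m).card ≤ (2 * n + 1).choose 2 - n.choose 2 - 1 := by
  have h0 : (H0 m).card = 1 := by
    have := card_interval m 0 0 (by omega)
    have e : H0 m = univ.filter (fun v : Fin m => 0 ≤ v.1 ∧ v.1 ≤ 0) := by
      ext v; simp [H0]
    rw [e, this]
  have hT : (T n m).card = 3 * n := by
    have := card_interval m 1 (3 * n) (by omega); simpa [T] using this
  have h1 : (C1 n m).card = (n + 1) / 2 := by
    have := card_interval m 1 ((n + 1) / 2) (by omega); simpa [C1] using this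
  have h2 : (C2 n m).card = n - (n + 1) / 2 := by
    have := card_interval m ((n + 1) / 2 + 1) n (by omega)
    unfold C2; rw [this]; omega
  have h3 : (I1 n m).card = n := by
    have := card_interval m (n + 1) (2 * n) (by omega)
    unfold I1; rw [this]; omega
  have h4 : (I2 n m).card = n := by
    have := card_interval m (2 * n + 1) (3 * n) (by omega)
    unfold I2; rw [this]; omega
  have c1 : (((H0 m) ×ˢ (T n m)).image (fun x => s(x.1, x.2))).card ≤ 3 * n := by
    refine card_image_le.trans ?_
    rw [card_product, h0, hT, one_mul]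
  have c2 : (((C1 n m) ×ˢ (I1 n m)).image (fun x => s(x.1, x.2))).card ≤ (n + 1) / 2 * n := by
    refine card_image_le.trans ?_
    rw [card_product, h1, h3]
  have c3 : (((C2 n m) ×ˢ (I2 n m)).image (fun x => s(x.1, x.2))).card ≤ (n - (n + 1) / 2) * n := by
    refine card_image_le.trans ?_
    rw [card_product, h2, h4]
  have c4 : ((C1 n m).offDiag.image (fun x => s(x.1, x.2))).card = ((n + 1) / 2).choose 2 := by
    have := Sym2.card_image_offDiag (C1 n m)
    rw [h1] at this
    exact this
  have c5 : ((C2 n m).offDiag.image (fun x => s(x.1, x.2))).card = (n - (n + 1) / 2).choose 2 := by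
    have := Sym2.card_image_offDiag (C2 n m)
    rw [h2] at this
    exact this
  have hF : (F n m).card ≤ 3 * n + (n + 1) / 2 * n + (n - (n + 1) / 2) * n +
      (((n + 1) / 2).choose 2 + (n - (n + 1) / 2).choose 2) := by
    unfold F
    refine (card_union_le _ _).trans ?_
    refine Nat.add_le_add ?_ ?_
    · refine (card_union_le _ _).trans ?_
      refine Nat.add_le_add ?_ c3
      refine (card_union_le _ _).trans ?_
      exact Nat.add_le_add c1 c2
    · refine (card_union_le _ _).trans ?_
      rw [c4, c5]
  refine hF.trans ?_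
  have t1 := two_choose (2 * n + 1)
  have t2 := two_choose n
  have t3 := two_choose ((n + 1) / 2)
  have t4 := two_choose (n - (n + 1) / 2)
  set p := (n + 1) / 2 with hp
  set q := n - p with hq
  have hpq : p + q = n := by omega
  have hpq2 : p = q ∨ p = q + 1 := by omega
  have key : 3 * n + p * n + q * n + (p.choose 2 + q.choose 2) + 1 + n.choose 2 ≤ (2 * n + 1).choose 2 := by
    rcases hpq2 with h | h
    · have hn2 : n = 2 * q := by omega
      have hq3 : 3 ≤ q := by omega
      rw [h] at t3 ⊢
      rw [hn2] at t1 t2 ⊢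
      nlinarith [t1, t2, t3, t4, hq3]
    · have hn2 : n = 2 * q + 1 := by omega
      have hq3 : 2 ≤ q := by omega
      rw [h] at t3 ⊢
      rw [hn2] at t1 t2 ⊢
      nlinarith [t1, t2, t3, t4, hq3]
  omega

lemma mem_F_not_diag (n m : ℕ) (e : Sym2 (Fin m)) (he : e ∈ F n m) : ¬ e.IsDiag := by
  unfold F at he
  simp only [mem_union, mem_image, mem_product, mem_offDiag, Prod.exists, C1, C2, I1, I2, H0, T,
    mem_filter, mem_univ, true_and] at he
  rcases he with ((⟨a, b, h, rfl⟩ | ⟨a, b, h, rfl⟩) | ⟨a, b, h, rfl⟩) | ⟨a, b, h, rfl⟩ | ⟨a, b, h, rfl⟩ <;>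
    simp only [Sym2.mk_isDiag_iff] <;> intro hab
  · have := congrArg Fin.val hab; omega
  · have := congrArg Fin.val hab; omega
  · have := congrArg Fin.val hab; omega
  · exact h.2.2 hab
  · exact h.2.2 hab

open scoped Classical in
/-- the main counting argument -/
lemma not_good (n m : ℕ) (hn : 1 ≤ n) (hm : 3 * n + 1 ≤ m) (G : SimpleGraph (Fin m))
    (hG : ∀ e ∈ F n m, e ∈ G.edgeSet) (c : Fin m → Bool)
    (hcs : ∀ v, ({w : Fin m | G.Adj v w ∧ c w = c v} : Set (Fin m)).ncard ≤ n - 1) : False := by
  have hc : ∀ v, ((univ.filter (fun w => G.Adj v w ∧ c w = c v)) : Finset (Fin m)).card ≤ n - 1 := by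
    intro v
    have := hcs v
    rw [← Set.ncard_coe_finset]
    convert this using 2
    ext w; simp
  have adj_hub : ∀ v ∈ T n m, G.Adj ⟨0, by omega⟩ v := by
    intro v hv
    have : s((⟨0, by omega⟩ : Fin m), v) ∈ G.edgeSet := by
      apply hG
      unfold F
      simp only [mem_union]
      left; left; left
      rw [mem_image]
      exact ⟨(⟨0, by omega⟩, v), by rw [mem_product]; exact ⟨by simp [H0], hv⟩, rfl⟩
    exact this
  have adj_11 : ∀ v ∈ C1 n m, ∀ w ∈ I1 n m, G.Adj v w := by
    intro v hv w hw
    have : s(v, w) ∈ G.edgeSet := by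
      apply hG
      unfold F
      simp only [mem_union]
      left; left; right
      rw [mem_image]
      exact ⟨(v, w), by rw [mem_product]; exact ⟨hv, hw⟩, rfl⟩
    exact this
  have adj_22 : ∀ v ∈ C2 n m, ∀ w ∈ I2 n m, G.Adj v w := by
    intro v hv w hw
    have : s(v, w) ∈ G.edgeSet := by
      apply hG
      unfold F
      simp only [mem_union]
      left; right
      rw [mem_image]
      exact ⟨(v, w), by rw [mem_product]; exact ⟨hv, hw⟩, rfl⟩
    exact this
  have adj_c1 : ∀ v ∈ C1 n m, ∀ w ∈ C1 n m, v ≠ w → G.Adj v w := by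
    intro v hv w hw hvw
    have : s(v, w) ∈ G.edgeSet := by
      apply hG
      unfold F
      simp only [mem_union]
      right; left
      rw [mem_image]
      exact ⟨(v, w), by rw [mem_offDiag]; exact ⟨hv, hw, hvw⟩, rfl⟩
    exact this
  have adj_c2 : ∀ v ∈ C2 n m, ∀ w ∈ C2 n m, v ≠ w → G.Adj v w := by
    intro v hv w hw hvw
    have : s(v, w) ∈ G.edgeSet := by
      apply hG
      unfold F
      simp only [mem_union]
      right; right
      rw [mem_image]
      exact ⟨(v, w), by rw [mem_offDiag]; exact ⟨hv, hw, hvw⟩, rfl⟩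
    exact this
  have h1 : (C1 n m).card = (n + 1) / 2 := by
    have := card_interval m 1 ((n + 1) / 2) (by omega); simpa [C1] using this
  have h2 : (C2 n m).card = n - (n + 1) / 2 := by
    have := card_interval m ((n + 1) / 2 + 1) n (by omega)
    unfold C2; rw [this]; omega
  have h3 : (I1 n m).card = n := by
    have := card_interval m (n + 1) (2 * n) (by omega)
    unfold I1; rw [this]; omega
  have h4 : (I2 n m).card = n := by
    have := card_interval m (2 * n + 1) (3 * n) (by omega)
    unfold I2; rw [this]; omega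
  set k : Bool := c ⟨0, by omega⟩ with hk
  -- A = same colour as the hub
  have hA : ((T n m).filter (fun v => c v = k)).card ≤ n - 1 := by
    refine le_trans (card_le_card ?_) (hc ⟨0, by omega⟩)
    intro v hv
    rw [mem_filter] at hv
    rw [mem_filter]
    exact ⟨mem_univ _, adj_hub v hv.1, hv.2⟩
  have split : ((C1 n m).filter (fun v => c v = k)).card + ((C2 n m).filter (fun v => c v = k)).card +
      ((I1 n m).filter (fun v => c v = k)).card + ((I2 n m).filter (fun v => c v = k)).card ≤
      ((T n m).filter (fun v => c v = k)).card := by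
    rw [← card_union_of_disjoint, ← card_union_of_disjoint, ← card_union_of_disjoint]
    · apply card_le_card
      intro v hv
      simp only [mem_union, mem_filter, C1, C2, I1, I2, T, mem_univ, true_and] at hv ⊢
      rcases hv with ((⟨h, h'⟩ | ⟨h, h'⟩) | ⟨h, h'⟩) | ⟨h, h'⟩ <;> exact ⟨by omega, h'⟩
    · rw [disjoint_left]
      intro v hv hv'
      simp only [mem_union, mem_filter, C1, C2, I1, I2, mem_univ, true_and] at hv hv'
      omega
    · rw [disjoint_left]
      intro v hv hv'
      simp only [mem_union, mem_filter, C1, C2, I1, mem_univ, true_and] at hv hv'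
      omega
    · rw [disjoint_left]
      intro v hv hv'
      simp only [mem_filter, C1, C2, mem_univ, true_and] at hv hv'
      omega
  -- a general step for one clique and its outer set
  have step : ∀ (C I : Finset (Fin m)), (∀ v ∈ C, ∀ w ∈ I, G.Adj v w) →
      (∀ v ∈ C, ∀ w ∈ C, v ≠ w → G.Adj v w) → Disjoint C I → I.card = n →
      C.card ≤ (C.filter (fun v => c v = k)).card + (I.filter (fun v => c v = k)).card := by
    intro C I hCI hCC hdisj hI
    by_cases hR : (C.filter (fun v => ¬ c v = k)).Nonempty
    · obtain ⟨v, hv⟩ := hR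
      have hv' := hv
      rw [mem_filter] at hv
      have hsub : ((C.filter (fun v => ¬ c v = k)).erase v) ∪ (I.filter (fun v => ¬ c v = k)) ⊆
          univ.filter (fun w => G.Adj v w ∧ c w = c v) := by
        intro w hw
        rw [mem_union, mem_erase, mem_filter, mem_filter] at hw
        rw [mem_filter]
        refine ⟨mem_univ _, ?_, ?_⟩
        · rcases hw with hw | hw
          · exact hCC v hv.1 w hw.2.1 (fun h => hw.1 h.symm)
          · exact hCI v hv.1 w hw.1
        · have a1 : ¬ c w = k := by rcases hw with hw | hw; exact hw.2.2; exact hw.2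
          have a2 : ¬ c v = k := hv.2
          revert a1 a2
          cases c w <;> cases c v <;> cases k <;> simp
      have hcard := (card_le_card hsub).trans (hc v)
      rw [card_union_of_disjoint, card_erase_of_mem hv'] at hcard
      · have e1 := card_filter_add_card_filter_not (s := C) (fun v => c v = k)
        have e2 := card_filter_add_card_filter_not (s := I) (fun v => c v = k)
        have e3 : 0 < (C.filter (fun v => ¬ c v = k)).card := card_pos.mpr ⟨v, hv'⟩
        omega
      · rw [disjoint_left]
        intro w hw hw'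
        rw [mem_erase, mem_filter] at hw
        rw [mem_filter] at hw'
        exact (disjoint_left.mp hdisj) hw.2.1 hw'.1
    · rw [not_nonempty_iff_eq_empty] at hR
      have e1 := card_filter_add_card_filter_not (s := C) (fun v => c v = k)
      rw [hR, card_empty] at e1
      omega
  have s1 := step (C1 n m) (I1 n m) adj_11 adj_c1 (by
    rw [disjoint_left]; intro v hv hv'
    simp only [mem_filter, C1, I1, mem_univ, true_and] at hv hv'
    omega) h3
  have s2 := step (C2 n m) (I2 n m) adj_22 adj_c2 (by
    rw [disjoint_left]; intro v hv hv'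
    simp only [mem_filter, C2, I2, mem_univ, true_and] at hv hv'
    omega) h4
  rw [h1] at s1
  rw [h2] at s2
  omega

/-- For every n at least 5 and every m at least 3n+1 some graph with m vertices and exactly
binom(2n+1,2) - binom(n,2) - 1 edges is not the union of a bipartite graph and a graph of maximum degree at most n-1. -/
theorem result : ∀ n : ℕ, 5 ≤ n → ∀ m : ℕ, 3 * n + 1 ≤ m →
    ∃ G : SimpleGraph (Fin m), G.edgeSet.ncard = (2 * n + 1).choose 2 - n.choose 2 - 1 ∧
      ¬ ∃ B D : SimpleGraph (Fin m), B.Colorable 2 ∧ (∀ v, (D.neighborSet v).ncard ≤ n - 1) ∧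
        G = B ⊔ D := by
  classical
  intro n hn m hm
  have hsub : F n m ⊆ (⊤ : SimpleGraph (Fin m)).edgeFinset := by
    intro e he
    rw [SimpleGraph.mem_edgeFinset, SimpleGraph.edgeSet_top]
    exact mem_F_not_diag n m e he
  have htop : (⊤ : SimpleGraph (Fin m)).edgeFinset.card = m.choose 2 := by
    rw [SimpleGraph.card_edgeFinset_top_eq_card_choose_two, Fintype.card_fin]
  have hle : (2 * n + 1).choose 2 - n.choose 2 - 1 ≤ m.choose 2 := by
    have : (2 * n + 1).choose 2 ≤ m.choose 2 := Nat.choose_le_choose 2 (by omega)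
    omega
  obtain ⟨t, ht1, ht2, ht3⟩ := Finset.exists_subsuperset_card_eq hsub (card_F n m hn hm) (by rw [htop]; exact hle)
  refine ⟨SimpleGraph.fromEdgeSet (t : Set (Sym2 (Fin m))), ?_, ?_⟩
  · have hE : (SimpleGraph.fromEdgeSet (t : Set (Sym2 (Fin m)))).edgeSet = (t : Set (Sym2 (Fin m))) := by
      rw [SimpleGraph.edgeSet_fromEdgeSet]
      ext e
      simp only [Set.mem_sdiff, mem_coe]
      constructor
      · exact fun h => h.1
      · intro h
        refine ⟨h, ?_⟩
        have := ht2 h
        rw [SimpleGraph.mem_edgeFinset, SimpleGraph.edgeSet_top] at this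
        exact this
    rw [hE, Set.ncard_coe_finset, ht3]
  · rintro ⟨B, D, hB, hD, hG⟩
    obtain ⟨C⟩ := hB
    set G := SimpleGraph.fromEdgeSet (t : Set (Sym2 (Fin m))) with hGdef
    refine not_good n m (by omega) hm G ?_ (fun v => decide (C v = 0)) ?_
    · intro e he
      rw [hGdef, SimpleGraph.edgeSet_fromEdgeSet]
      exact ⟨ht1 he, mem_F_not_diag n m e he⟩
    · intro v
      refine le_trans ?_ (hD v)
      apply Set.ncard_le_ncard _ (Set.toFinite _)
      intro w hw
      rw [SimpleGraph.mem_neighborSet]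
      have hadj : (B ⊔ D).Adj v w := by rw [← hG]; exact hw.1
      rw [SimpleGraph.sup_adj] at hadj
      rcases hadj with h | h
      · exfalso
        have hne := C.valid h
        have heq := hw.2
        rw [decide_eq_decide] at heq
        have c1 : C v = 0 ∨ C v = 1 := by
          generalize C v = x; fin_cases x <;> simp
        have c2 : C w = 0 ∨ C w = 1 := by
          generalize C w = x; fin_cases x <;> simp
        rcases c1 with h1 | h1 <;> rcases c2 with h2 | h2 <;> simp_all
      · exact h

end Pool.Agent.Results.MP_270b6b_co.AllFromFive
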