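import Pool.Agent.Lib.MP_270b6b_co.MB.Main
import Pool.Agent.Lib.MP_270b6b_co.Spider14

/-!
# The assertion of Q1 decided for all pairs `(n, m)` with `n ≥ 14`, `m ≥ 2 n + 2`

`Holds n m` is the assertion for graphs on `m` vertices. It is true for `m = 2 n + 2` and every `n ≥ 13`, and
false for every `n ≥ 14` and every `m ≥ 2 n + 3`.

Idea for `m = 2 n + 2`. Let `C` be the complement and `w = n + 1`; `C` has `C(w+1, 2) + 1` edges. Wanted: a set `P` of
`w + 1` vertices each having two neighbours in `P`, or a partition into two sets of size `w` without isolated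
vertices. A set `P` of `w + 1` vertices with most edges in `C` is `R + v` where with `D` the complement of `R` every vertex of
`D` has at most one neighbour in `R`. If `R` misses `r` edges then `D` has at least `r + 1` edges. A set
with only `t` different sizes of subsets of minimum degree at least two has at most `|H| - 1 + C(t+1, 2)`
edges; as the sizes which occur in `R` and in `D` never add up to `w + 1`, this gives that `D` has at most `w + 5`
edges, then at most `w`, and a minimal subset of `D` which becomes a set of minimum degree two together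
with suitable vertices of `R` gives `P`, except for two families for which the partition is explicit.

The graphs for `m ≥ 2 n + 3` are described in `Pool.Agent.Lib.MP_270b6b_co.Spider14`.
-/

set_option autoImplicit false

namespace Pool.Agent.Results.MP_270b6b_co.Decided

/-- The assertion of Q1 for graphs on `m` vertices: every graph on `m` vertices with exactly
`e(n) = C(2n+1, 2) - C(n, 2) - 1` edges is the union of a bipartite graph and a graph in which all degrees are
at most `n - 1`. -/
def Holds (n m : ℕ) : Prop :=
  ∀ G : SimpleGraph (Fin m), G.edgeSet.ncard = (2 * n + 1).choose 2 - n.choose 2 - 1 →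
    ∃ B D : SimpleGraph (Fin m), B.Colorable 2 ∧ (∀ v, (D.neighborSet v).ncard ≤ n - 1) ∧ G = B ⊔ D

/-- **Theorem.** The assertion is true on `2 n + 2` vertices for every `n ≥ 13`, and for every `n ≥ 14` and
`m ≥ 2 n + 2` it is true exactly if `m = 2 n + 2`. -/
theorem result : (∀ n : ℕ, 13 ≤ n → Holds n (2 * n + 2)) ∧
    (∀ n m : ℕ, 14 ≤ n → 2 * n + 2 ≤ m → (Holds n m ↔ m = 2 * n + 2)) := by
  have h1 : ∀ n : ℕ, 13 ≤ n → Holds n (2 * n + 2) := fun n hn G hG =>
    Pool.Agent.Lib.MP_270b6b_co.MB.twoNPlusTwo n hn G (le_of_eq hG)
  refine ⟨h1, fun n m hn hm => ⟨fun h => ?_, fun h => ?_⟩⟩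
  · by_contra hne
    obtain ⟨G, hG, hno⟩ := Pool.Agent.Lib.MP_270b6b_co.Spider14.fails n hn m (by omega)
    exact hno (h G hG)
  · subst h
    exact h1 n (by omega)

end Pool.Agent.Results.MP_270b6b_co.Decided
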