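import Pool.Agent.Lib.MP_270b6b_co.N3.Main

/-!
# The case `n = 3`: every graph with at most `e(3) = 17` edges has property `P_3`

Idea of the proof. A partition is good if every vertex has at most two neighbours in its own part. If all
degrees are at most five, a maximum cut is good. Otherwise let `v` be a vertex of degree at least six (the hub), and choose three
centres `x`, `y`, `z` greedily (largest degrees after the removal of the vertices chosen before). If two
vertices besides `v` already meet all vertices of degree at least three, we are done. Otherwise every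
centre has at least three neighbours outside `{v, x, y, z}`, so the hub has at most eight neighbours and
there are at most two edges besides those which meet `v`, `x`, `y`, `z`. Then one exchanges centres with
neighbours of centres which are not neighbours of the hub; a discussion of the few remaining cases shows
that one of about ten explicit partitions is good. All this is done for graphs with any number of vertices.
-/

set_option autoImplicit false

namespace Pool.Agent.Results.MP_270b6b_co.NThree

open Pool.Agent.Lib.MP_270b6b_co.N3

/-- **Theorem.** For every `m`, every graph on `m` vertices with at most `e(3) = 17` edges is the union of a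
bipartite graph and a graph of maximum degree at most `3 - 1 = 2`. -/
theorem result : ∀ (m : ℕ) (G : SimpleGraph (Fin m)),
    G.edgeSet.ncard ≤ (2 * 3 + 1).choose 2 - Nat.choose 3 2 - 1 →
    ∃ B D : SimpleGraph (Fin m), B.Colorable 2 ∧ (∀ v, (D.neighborSet v).ncard ≤ 3 - 1) ∧
      G = B ⊔ D := by
  classical
  intro m G hG
  have hcard : G.edgeFinset.card ≤ 17 := by
    have h1 : G.edgeSet.ncard = G.edgeFinset.card := by
      rw [← SimpleGraph.coe_edgeFinset, Set.ncard_coe_finset]
    have h2 : (2 * 3 + 1).choose 2 - Nat.choose 3 2 - 1 = 17 := by decide
    rw [h1, h2] at hG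
    exact hG
  obtain ⟨A, hA1, hA2⟩ := good_of_card_le G hcard
  let B : SimpleGraph (Fin m) :=
    { Adj := fun a b => G.Adj a b ∧ ¬ (a ∈ A ↔ b ∈ A)
      symm := ⟨fun a b h => ⟨h.1.symm, fun h' => h.2 h'.symm⟩⟩
      loopless := ⟨fun a h => h.2 Iff.rfl⟩ }
  let D : SimpleGraph (Fin m) :=
    { Adj := fun a b => G.Adj a b ∧ (a ∈ A ↔ b ∈ A)
      symm := ⟨fun a b h => ⟨h.1.symm, h.2.symm⟩⟩
      loopless := ⟨fun a h => G.irrefl h.1⟩ }
  refine ⟨B, D, ?_, fun v => ?_, ?_⟩
  · refine ⟨SimpleGraph.Coloring.mk (fun v => if v ∈ A then 0 else 1) ?_⟩
    intro a b hab hc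
    apply hab.2
    by_cases ha : a ∈ A <;> by_cases hb : b ∈ A <;> simp_all
  · by_cases hv : v ∈ A
    · have : D.neighborSet v = ((G.neighborFinset v ∩ A : Finset (Fin m)) : Set (Fin m)) := by
        ext w
        simp only [SimpleGraph.mem_neighborSet, Finset.coe_inter, Set.mem_inter_iff,
          SimpleGraph.coe_neighborFinset, Finset.mem_coe]
        constructor
        · intro h
          exact ⟨h.1, h.2.1 hv⟩
        · intro h
          exact ⟨h.1, fun _ => h.2, fun _ => hv⟩
      rw [this, Set.ncard_coe_finset]
      exact hA1 v hv
    · have : D.neighborSet v = ((G.neighborFinset v \ A : Finset (Fin m)) : Set (Fin m)) := by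
        ext w
        simp only [SimpleGraph.mem_neighborSet, Finset.coe_sdiff, Set.mem_diff,
          SimpleGraph.coe_neighborFinset, Finset.mem_coe]
        constructor
        · intro h
          exact ⟨h.1, fun hw => hv (h.2.2 hw)⟩
        · intro h
          exact ⟨h.1, fun h' => absurd h' hv, fun h' => absurd h' h.2⟩
      rw [this, Set.ncard_coe_finset]
      exact hA2 v hv
  · ext a b
    rw [SimpleGraph.sup_adj]
    constructor
    · intro h
      by_cases hc : a ∈ A ↔ b ∈ A
      · exact Or.inr ⟨h, hc⟩
      · exact Or.inl ⟨h, hc⟩
    · rintro (h | h)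
      · exact h.1
      · exact h.1

end Pool.Agent.Results.MP_270b6b_co.NThree
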